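import Mathlib

/-!
# Complex numbers that are units at all the valuations above two
-/

set_option autoImplicit false

namespace Pool.Agent.U297.TT

open Polynomial Algebra

/-- If `w z ≤ 1` for all the valuations `w` of `ℂ` above two, then `z` is the root of a polynomial with
integral coefficients and odd leading coefficient. -/
theorem odd_poly {z : ℂ} (hz : z ≠ 0)
    (h : ∀ (Γ : Type) [LinearOrderedCommGroupWithZero Γ] (w : Valuation ℂ Γ), w 2 < 1 → w z ≤ 1) :
    ∃ P : ℤ[X], Odd P.leadingCoeff ∧ aeval z P = 0 := by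
  have hx0 : z⁻¹ ≠ 0 := inv_ne_zero hz
  let _ := invertibleOfNonzero hx0
  let B := Algebra.adjoin ℤ ({z⁻¹} : Set ℂ)
  let xinv : B := ⟨z⁻¹, subset_adjoin rfl⟩
  have h2 : (Ideal.span {(2 : ℤ)} : Ideal ℤ) ≠ ⊤ := by
    intro h
    rw [Ideal.span_singleton_eq_top] at h
    exact absurd h (by decide)
  have key : (Ideal.span {(2 : ℤ)}).map (algebraMap ℤ B) ⊔ Ideal.span {xinv} = ⊤ := by
    by_contra hne
    obtain ⟨V, hV1, hV2⟩ := Ideal.image_subset_nonunits_valuationSubring (A := B.toSubring) _ hne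
    have m1 : (2 : ℂ) ∈ V.nonunits := by
      apply hV2
      refine ⟨(algebraMap ℤ B 2), ?_, ?_⟩
      · exact Ideal.mem_sup_left (Ideal.mem_map_of_mem _ (Ideal.mem_span_singleton_self 2))
      · simp only [algebraMap_int_eq, eq_intCast, Int.cast_ofNat]
        exact map_ofNat B.val 2
    have m2 : z⁻¹ ∈ V.nonunits := by
      apply hV2
      exact ⟨xinv, Ideal.mem_sup_right (Ideal.mem_span_singleton_self xinv), rfl⟩
    rw [ValuationSubring.mem_nonunits_iff] at m1 m2
    have h3 := h _ V.valuation m1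
    rw [map_inv₀] at m2
    have h4 : V.valuation z ≠ 0 := (Valuation.ne_zero_iff _).2 hz
    have h5 : 1 < V.valuation z := by
      rwa [inv_lt_one₀ (zero_lt_iff.2 h4)] at m2
    exact absurd h3 (not_le.2 h5)
  obtain ⟨p, hp, hpx⟩ := exists_aeval_invOf_eq_zero_of_idealMap_adjoin_sup_span_eq_top z⁻¹ _ h2 key
  refine ⟨p, ?_, ?_⟩
  · rw [Ideal.mem_span_singleton] at hp
    obtain ⟨k, hk⟩ := hp
    exact ⟨k, by linarith⟩
  · have h6 : (⅟(z⁻¹) : ℂ) = z := by
      rw [invOf_eq_inv, inv_inv]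
    rwa [h6] at hpx

/-- A nonzero complex number `z` with `w z = 1` for all the valuations `w` of `ℂ` above two: the numbers
`z` and `z⁻¹` are roots of polynomials with integral coefficients and odd leading coefficients. -/
theorem unit_poly {z : ℂ} (hz : z ≠ 0)
    (h : ∀ (Γ : Type) [LinearOrderedCommGroupWithZero Γ] (w : Valuation ℂ Γ), w 2 < 1 → w z = 1) :
    (∃ P : ℤ[X], Odd P.leadingCoeff ∧ aeval z P = 0) ∧
      ∃ P : ℤ[X], Odd P.leadingCoeff ∧ aeval z⁻¹ P = 0 := by
  refine ⟨odd_poly hz fun Γ _ w hw => (h Γ w hw).le,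
    odd_poly (inv_ne_zero hz) fun Γ _ w hw => ?_⟩
  rw [map_inv₀, h Γ w hw, inv_one]

end Pool.Agent.U297.TT
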